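import Mathlib

/-!
# Algebraic proofs of the non-isomorphism of directed graphs
-/

set_option autoImplicit false

namespace Pool.Agent.TH658.Dg

open MvPolynomial

/-- Let `G` and `H` be binary relations (directed graphs, for example tournaments) on the finite
sets `V` and `V'`. These are the polynomials (in the variables `x (u, v)`, for `u` in `V` and `v` in
`V'`) whose common zeros are the permutation matrices of the isomorphisms from `G` to `H`:
`x (u, v) ^ 2 - x (u, v)`, the row sums and column sums minus `1`, and the products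
`x (u, v) * x (u', v')` for which `u ↦ v`, `u' ↦ v'` violates the equality `u = u'` or the relation
`G u u'`. (Since the pair `u', u` is also used, the products vanish only if `u ↦ v`, `u' ↦ v'` is an
isomorphism of the induced directed graphs.) -/
inductive IsoAxiom (K : Type) [CommRing K] {V V' : Type} [Fintype V] [Fintype V']
    (G : V → V → Prop) (H : V' → V' → Prop) : MvPolynomial (V × V') K → Prop
  | bool (u : V) (v : V') : IsoAxiom K G H (X (u, v) ^ 2 - X (u, v))
  | row (u : V) : IsoAxiom K G H (∑ v : V', X (u, v) - 1)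
  | col (v : V') : IsoAxiom K G H (∑ u : V, X (u, v) - 1)
  | pair (u u' : V) (v v' : V') (h : ¬ ((u = u' ↔ v = v') ∧ (G u u' ↔ H v v'))) :
      IsoAxiom K G H (X (u, v) * X (u', v'))

/-- `E` is a pseudo-expectation of degree `d` for the isomorphisms from `G` to `H` (a solution of
the sum-of-squares, or Lasserre, relaxation of degree `d`): a linear functional with `E 1 = 1` that
is nonnegative on squares of polynomials of degree at most `d / 2` and zero on the multiples of
degree at most `d` of the polynomials that define the isomorphisms. -/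
structure IsPseudoExpectation {V V' : Type} [Fintype V] [Fintype V'] (G : V → V → Prop)
    (H : V' → V' → Prop) (d : ℕ) (E : MvPolynomial (V × V') ℝ →ₗ[ℝ] ℝ) : Prop where
  one : E 1 = 1
  sq : ∀ q : MvPolynomial (V × V') ℝ, 2 * q.totalDegree ≤ d → 0 ≤ E (q ^ 2)
  ax : ∀ p r : MvPolynomial (V × V') ℝ, IsoAxiom ℝ G H p → (r * p).totalDegree ≤ d → E (r * p) = 0

/-- A sum-of-squares refutation of degree `d` of the isomorphism of `G` and `H`: an identity
`-1 = ∑ q i ^ 2 + ∑ r j * p j` in which the `p j` are polynomials that define the isomorphisms and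
all terms have degree at most `d`. -/
def SosRefutes {V V' : Type} [Fintype V] [Fintype V'] (G : V → V → Prop) (H : V' → V' → Prop)
    (d : ℕ) : Prop :=
  ∃ (m n : ℕ) (q : Fin m → MvPolynomial (V × V') ℝ) (p r : Fin n → MvPolynomial (V × V') ℝ),
    (∀ i, 2 * (q i).totalDegree ≤ d) ∧
    (∀ j, IsoAxiom ℝ G H (p j) ∧ (r j * p j).totalDegree ≤ d) ∧
    -1 = ∑ i, q i ^ 2 + ∑ j, r j * p j

theorem IsPseudoExpectation.not_refutes {V V' : Type} [Fintype V] [Fintype V']
    {G : V → V → Prop} {H : V' → V' → Prop} {d : ℕ} {E : MvPolynomial (V × V') ℝ →ₗ[ℝ] ℝ}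
    (hE : IsPseudoExpectation G H d E) : ¬ SosRefutes G H d := by
  rintro ⟨m, n, q, p, r, hq, hp, h⟩
  have h1 := congrArg E h
  rw [map_neg, hE.one, map_add, map_sum, map_sum] at h1
  have h2 : 0 ≤ ∑ i, E (q i ^ 2) := Finset.sum_nonneg fun i _ => hE.sq _ (hq i)
  have h3 : ∑ j, E (r j * p j) = 0 := Finset.sum_eq_zero fun j _ => hE.ax _ _ (hp j).1 (hp j).2
  linarith

end Pool.Agent.TH658.Dg
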