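import Pool.Agent.TH658.Sos.Sys

/-!
# The affine systems of flows on expanding graphs
-/

set_option autoImplicit false
set_option linter.unusedSectionVars false

namespace Pool.Agent.TH658.Dg

open Finset Module Pool.Agent.TH658.Sos

section

variable {A Q E : Type} [AddCommGroup A] [Fintype Q] [DecidableEq Q] [Fintype E]
  (src tgt : E → Q)

/-- The net flow into a node. -/
def bd (M : E → A) (v : Q) : A :=
  ∑ e, ((if tgt e = v then M e else 0) - (if src e = v then M e else 0))

theorem sum_bd (M : E → A) : ∑ v, bd src tgt M v = 0 := by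
  unfold bd
  rw [Finset.sum_comm]
  refine Finset.sum_eq_zero fun e _ => ?_
  rw [Finset.sum_sub_distrib, Finset.sum_ite_eq, Finset.sum_ite_eq]
  simp

end

section

variable {F Q E : Type} [Field F] [Fintype Q] [DecidableEq Q] [Fintype E]
  [DecidableEq E] (src tgt : E → Q)

/-- The difference of a function on the nodes along an edge. -/
def cob (y : Q → F) (e : E) : F := y (tgt e) - y (src e)

theorem pairing (y : Q → F) (M : E → F) :
    ∑ v, y v * bd src tgt M v = ∑ e, cob src tgt y e * M e := by
  unfold bd cob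
  simp only [Finset.mul_sum]
  rw [Finset.sum_comm]
  refine Finset.sum_congr rfl fun e _ => ?_
  simp only [mul_sub, mul_ite, mul_zero]
  rw [Finset.sum_sub_distrib, Finset.sum_ite_eq, Finset.sum_ite_eq]
  simp only [Finset.mem_univ, if_true]
  ring

theorem cob_add (y z : Q → F) (e : E) :
    cob src tgt (y + z) e = cob src tgt y e + cob src tgt z e := by
  unfold cob
  simp only [Pi.add_apply]
  ring

theorem cob_smul (c : F) (y : Q → F) (e : E) :
    cob src tgt (c • y) e = c * cob src tgt y e := by
  unfold cob
  simp only [Pi.smul_apply, smul_eq_mul]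
  ring

open Classical in
/-- The number of nodes where `y` is not zero. -/
noncomputable def wt (y : Q → F) : ℕ := (univ.filter fun v => y v ≠ 0).card

theorem wt_add_le (y z : Q → F) : wt (y + z) ≤ wt y + wt z := by
  classical
  unfold wt
  refine (Finset.card_le_card ?_).trans (Finset.card_union_le _ _)
  intro v hv
  rw [Finset.mem_filter] at hv
  rw [Finset.mem_union, Finset.mem_filter, Finset.mem_filter]
  by_contra h
  push Not at h
  apply hv.2
  have h1 := h.1 (Finset.mem_univ v)
  have h2 := h.2 (Finset.mem_univ v)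
  rw [Pi.add_apply, h1, h2, add_zero]

theorem wt_smul_le (c : F) (y : Q → F) : wt (c • y) ≤ wt y := by
  classical
  unfold wt
  refine Finset.card_le_card ?_
  intro v hv
  rw [Finset.mem_filter] at hv ⊢
  refine ⟨Finset.mem_univ v, fun h => hv.2 ?_⟩
  rw [Pi.smul_apply, h, smul_zero]

theorem wt_zero : wt (0 : Q → F) = 0 := by
  classical
  unfold wt
  rw [Finset.card_eq_zero, Finset.filter_eq_empty_iff]
  intro v _ h
  exact h rfl

/-- Functions with few nonzero values have many nonzero differences. -/
structure Expd (F : Type) [Field F] (src tgt : E → Q) (s K : ℕ) : Prop where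
  exp : ∀ (y : Q → F) (W : Finset E), wt y ≤ 2 * s → W.card ≤ K →
    (∀ e, e ∉ W → cob src tgt y e = 0) → wt y ≤ s
  ker : ∀ y : Q → F, wt y ≤ s → (∀ e, cob src tgt y e = 0) → y = 0

variable {src tgt} {s K : ℕ} (hE : Expd F src tgt s K)

/-- The solutions can be extended. -/
theorem Expd.extend (hE : Expd F src tgt s K) (b : Q → F) {W W' : Finset E} (hW : W ≤ W')
    (hK : W'.card ≤ K) {M : E → F}
    (hM : ∀ y : Q → F, wt y ≤ s → (∀ e, e ∉ W → cob src tgt y e = 0) →
      ∑ e, cob src tgt y e * M e = ∑ v, y v * b v) :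
    ∃ M' : E → F, (∀ y : Q → F, wt y ≤ s → (∀ e, e ∉ W' → cob src tgt y e = 0) →
      ∑ e, cob src tgt y e * M' e = ∑ v, y v * b v) ∧ ∀ e ∈ W, M' e = M e := by
  classical
  let C : Submodule F (Q → F) :=
    { carrier := {y | wt y ≤ s ∧ ∀ e, e ∉ W' → cob src tgt y e = 0}
      add_mem' := by
        rintro y z ⟨h1, h2⟩ ⟨h3, h4⟩
        have h5 : ∀ e, e ∉ W' → cob src tgt (y + z) e = 0 := fun e he => by
          rw [cob_add, h2 e he, h4 e he, add_zero]
        refine ⟨hE.exp _ W' ?_ hK h5, h5⟩
        have := wt_add_le y z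
        omega
      zero_mem' := by
        refine ⟨by rw [wt_zero]; exact Nat.zero_le _, fun e _ => ?_⟩
        unfold cob
        simp
      smul_mem' := by
        rintro c y ⟨h1, h2⟩
        refine ⟨(wt_smul_le c y).trans h1, fun e he => ?_⟩
        rw [cob_smul, h2 e he, mul_zero] }
  let f : C →ₗ[F] ({e // e ∉ W} → F) :=
    { toFun := fun y e => cob src tgt y.1 e.1
      map_add' := fun y z => by
        funext e
        exact cob_add src tgt y.1 z.1 e.1
      map_smul' := fun c y => by
        funext e
        exact cob_smul src tgt c y.1 e.1 }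
  let g : Dual F C :=
    { toFun := fun y => ∑ v, y.1 v * b v - ∑ e, cob src tgt y.1 e * M e
      map_add' := fun y z => by
        have h1 : ∀ v, (y + z).1 v * b v = y.1 v * b v + z.1 v * b v := fun v => add_mul _ _ _
        have h2 : ∀ e, cob src tgt (y + z).1 e * M e =
            cob src tgt y.1 e * M e + cob src tgt z.1 e * M e := fun e => by
          rw [← add_mul, ← cob_add]
          rfl
        rw [Finset.sum_congr rfl fun v _ => h1 v, Finset.sum_congr rfl fun e _ => h2 e,
          Finset.sum_add_distrib, Finset.sum_add_distrib]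
        ring
      map_smul' := fun c y => by
        have h1 : ∀ v, (c • y).1 v * b v = c * (y.1 v * b v) := fun v => mul_assoc _ _ _
        have h2 : ∀ e, cob src tgt (c • y).1 e * M e = c * (cob src tgt y.1 e * M e) := fun e => by
          rw [← mul_assoc, ← cob_smul]
          rfl
        rw [Finset.sum_congr rfl fun v _ => h1 v, Finset.sum_congr rfl fun e _ => h2 e,
          ← Finset.mul_sum, ← Finset.mul_sum, RingHom.id_apply, smul_eq_mul]
        ring }
  have hg : g ∈ (LinearMap.ker f).dualAnnihilator := by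
    rw [Submodule.mem_dualAnnihilator]
    intro y hy
    have h1 : ∀ e, e ∉ W → cob src tgt y.1 e = 0 := fun e he =>
      congrFun (LinearMap.mem_ker.1 hy) ⟨e, he⟩
    show ∑ v, y.1 v * b v - ∑ e, cob src tgt y.1 e * M e = 0
    rw [hM y.1 y.2.1 h1, sub_self]
  rw [← LinearMap.range_dualMap_eq_dualAnnihilator_ker] at hg
  obtain ⟨ψ, hψ⟩ := hg
  let N : E → F := fun e => if h : e ∉ W then ψ (Pi.single ⟨e, h⟩ 1) else 0
  have hN : ∀ y : C, ∑ e, cob src tgt y.1 e * N e = g y := by
    intro y
    have h1 : g y = ψ (f y) := by rw [← hψ]; rfl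
    have h2 : f y = ∑ e : {e // e ∉ W}, f y e • (Pi.single e 1 : {e // e ∉ W} → F) := by
      funext e
      rw [Finset.sum_apply]
      simp [Pi.single_apply]
    rw [h1, h2, map_sum]
    simp only [map_smul, smul_eq_mul]
    have h3 : ∀ e, cob src tgt y.1 e * N e = if h : e ∉ W then
        f y ⟨e, h⟩ * ψ (Pi.single ⟨e, h⟩ 1) else 0 := by
      intro e
      by_cases h : e ∉ W
      · rw [dif_pos h]
        show cob src tgt y.1 e * (if h : e ∉ W then ψ (Pi.single ⟨e, h⟩ 1) else 0) = _
        rw [dif_pos h]
        rfl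
      · rw [dif_neg h]
        show cob src tgt y.1 e * (if h : e ∉ W then ψ (Pi.single ⟨e, h⟩ 1) else 0) = _
        rw [dif_neg h, mul_zero]
    rw [Finset.sum_congr rfl fun e _ => h3 e, Finset.sum_dite]
    simp only [Finset.sum_const_zero, add_zero]
    refine Finset.sum_nbij' (fun x => ⟨x.1, (Finset.mem_filter.1 x.2).2⟩)
      (fun x => ⟨x.1, Finset.mem_filter.2 ⟨Finset.mem_univ _, x.2⟩⟩) ?_ ?_ ?_ ?_ ?_
    · intro x _
      exact Finset.mem_univ _
    · intro x _
      exact Finset.mem_attach _ _
    · intro x _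
      rfl
    · intro x _
      rfl
    · intro x _
      rfl
  refine ⟨fun e => M e + N e, fun y h1 h2 => ?_, fun e he => ?_⟩
  · simp only [mul_add]
    rw [Finset.sum_add_distrib, hN ⟨y, h1, h2⟩]
    show _ + (∑ v, y v * b v - ∑ e, cob src tgt y e * M e) = _
    ring
  · show M e + (if h : e ∉ W then ψ (Pi.single ⟨e, h⟩ 1) else 0) = M e
    rw [dif_neg (not_not.2 he), add_zero]

/-- The system of the flows with net flow `b v` into `v`. -/
noncomputable def flowSys (hE : Expd F src tgt s K) (b : Q → F) : Sys (E → F) (Finset E) where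
  N W :=
    { carrier := {M | ∀ e ∈ W, M e = 0}
      add_mem' := fun {M M'} h h' e he => by
        rw [Pi.add_apply, h e he, h' e he, add_zero]
      zero_mem' := fun e _ => rfl
      neg_mem' := fun {M} h e he => by
        rw [Pi.neg_apply, h e he, neg_zero] }
  D W :=
    { carrier := {M | ∀ y : Q → F, wt y ≤ s → (∀ e, e ∉ W → cob src tgt y e = 0) →
        ∑ e, cob src tgt y e * M e = 0}
      add_mem' := fun {M M'} h h' y h1 h2 => by
        simp only [Pi.add_apply, mul_add]
        rw [Finset.sum_add_distrib, h y h1 h2, h' y h1 h2, add_zero]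
      zero_mem' := fun y _ _ => by simp
      neg_mem' := fun {M} h y h1 h2 => by
        simp only [Pi.neg_apply, mul_neg]
        rw [Finset.sum_neg_distrib, h y h1 h2, neg_zero] }
  Sol W := {M | ∀ y : Q → F, wt y ≤ s → (∀ e, e ∉ W → cob src tgt y e = 0) →
        ∑ e, cob src tgt y e * M e = ∑ v, y v * b v}
  size W := W.card
  K := K
  N_anti W W' h M hM e he := hM e (h he)
  D_anti W W' h M hM y h1 h2 := hM y h1 fun e he => h2 e fun he' => he (h he')
  Sol_anti W W' h M hM y h1 h2 := hM y h1 fun e he => h2 e fun he' => he (h he')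
  sol_iff W M M' hM := by
    constructor
    · intro h y h1 h2
      simp only [Pi.sub_apply, mul_sub]
      rw [Finset.sum_sub_distrib, h y h1 h2, hM y h1 h2, sub_self]
    · intro h y h1 h2
      have h3 := h y h1 h2
      simp only [Pi.sub_apply, mul_sub] at h3
      rw [Finset.sum_sub_distrib, hM y h1 h2] at h3
      exact sub_eq_zero.1 h3
  size_bot := Finset.card_empty
  size_sup W W' := Finset.card_union_le W W'
  nonempty W hW := by
    obtain ⟨M', h, -⟩ := hE.extend b (Finset.empty_subset W) hW (M := 0) (by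
      intro y h1 h2
      rw [hE.ker y h1 fun e => h2 e (Finset.notMem_empty e)]
      unfold cob
      simp)
    exact ⟨M', h⟩
  extend W W' h hK M hM := by
    obtain ⟨M', h1, h2⟩ := hE.extend b h hK hM
    refine ⟨M', h1, fun e he => ?_⟩
    rw [Pi.sub_apply, h2 e he, sub_self]

/-- At a node all of whose edges are in the level, the equation holds. -/
theorem flowSys_node (hE : Expd F src tgt s K) (hs : 1 ≤ s) (b : Q → F) {W : Finset E}
    {M : E → F} (hM : M ∈ (flowSys hE b).Sol W) (v : Q)
    (hv : ∀ e, tgt e = v ∨ src e = v → e ∈ W) : bd src tgt M v = b v := by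
  classical
  have h1 := hM (Pi.single v 1) (by
    refine le_trans ?_ hs
    unfold wt
    refine (Finset.card_le_card (t := {v}) ?_).trans (Finset.card_singleton v).le
    intro w hw
    rw [Finset.mem_filter] at hw
    rw [Finset.mem_singleton]
    by_contra h
    exact hw.2 (Pi.single_eq_of_ne h _)) (by
    intro e he
    have h1 : tgt e ≠ v := fun h => he (hv e (Or.inl h))
    have h2 : src e ≠ v := fun h => he (hv e (Or.inr h))
    unfold cob
    rw [Pi.single_eq_of_ne h1, Pi.single_eq_of_ne h2, sub_zero])
  rw [← pairing] at h1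
  simp only [Pi.single_apply, ite_mul, one_mul, zero_mul] at h1
  rw [Finset.sum_ite_eq', Finset.sum_ite_eq'] at h1
  simpa using h1

end

end Pool.Agent.TH658.Dg
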