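import Mathlib

/-!
# Invertible-map equivalence
-/

set_option autoImplicit false

namespace Pool.Agent.TH658.Dg

/-- The tuple `u` with the entries at the positions `ι (inl a)` replaced by `x a` and the entries at
the positions `ι (inr a)` replaced by `y a`. -/
noncomputable def subst {k m : ℕ} {V : Type} (ι : Fin m ⊕ Fin m ↪ Fin k) (u : Fin k → V)
    (x y : Fin m → V) : Fin k → V :=
  Function.extend ι (Sum.elim x y) u

open Classical in
/-- The matrix, indexed by `m`-tuples, whose entry at `(x, y)` is `1` if the tuple `u` with `x` and
`y` substituted at the positions `ι` is in the class of `c`, and `0` otherwise. (The map `i` sends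
tuples to the set `T` on which the equivalence relation `R` is given.) -/
noncomputable def classMatrix (K : Type) [Field K] {T V : Type} (R : T → T → Prop) {k m : ℕ}
    (i : (Fin k → V) → T) (ι : Fin m ⊕ Fin m ↪ Fin k) (u : Fin k → V) (c : T) :
    Matrix (Fin m → V) (Fin m → V) K :=
  fun x y => if R c (i (subst ι u x y)) then 1 else 0

/-- One invertible matrix `P` over the algebraic closure of `K` transforms, for every class `c`, the
class matrix of `u` into the one of `v`. (By the Noether-Deuring theorem there is then also such
a matrix over `K`.) -/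
def Similar (K : Type) [Field K] {T V V' : Type} [Fintype V] [Fintype V'] (R : T → T → Prop)
    {k m : ℕ} (i : (Fin k → V) → T) (j : (Fin k → V') → T) (ι : Fin m ⊕ Fin m ↪ Fin k)
    (u : Fin k → V) (v : Fin k → V') : Prop :=
  letI : DecidableEq V := Classical.decEq V
  letI : DecidableEq V' := Classical.decEq V'
  ∃ (P : Matrix (Fin m → V) (Fin m → V') (AlgebraicClosure K))
    (Q : Matrix (Fin m → V') (Fin m → V) (AlgebraicClosure K)), P * Q = 1 ∧ Q * P = 1 ∧
    ∀ c : T, classMatrix (AlgebraicClosure K) R i ι u c * P =
      P * classMatrix (AlgebraicClosure K) R j ι v c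

/-- Tuples in the same class have the same equalities and the same relations `G`, `H` between their
entries, and their class matrices are simultaneously similar over all fields in which `p` is not
zero, for all positions. -/
def Compat (p : ℕ) {T V V' : Type} [Fintype V] [Fintype V'] (R : T → T → Prop) {k : ℕ}
    (G : V → V → Prop) (H : V' → V' → Prop) (i : (Fin k → V) → T) (j : (Fin k → V') → T) : Prop :=
  ∀ u v, R (i u) (j v) →
    (∀ a b, (u a = u b ↔ v a = v b) ∧ (G (u a) (u b) ↔ H (v a) (v b))) ∧
    ∀ (K : Type) [Field K], (p : K) ≠ 0 → ∀ (m : ℕ) (ι : Fin m ⊕ Fin m ↪ Fin k),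
      Similar K R i j ι u v

/-- The binary relations (directed graphs) `G` and `H` are not distinguished by the `k`-dimensional
invertible-map test over all fields in which `p` is not zero: there is an equivalence relation on
the `k`-tuples of `G` and of `H` which is stable and all whose classes contain as many tuples of `G`
as of `H`. -/
def IMEquiv (p k : ℕ) {V V' : Type} [Fintype V] [Fintype V'] (G : V → V → Prop)
    (H : V' → V' → Prop) : Prop :=
  ∃ R : (Fin k → V) ⊕ (Fin k → V') → (Fin k → V) ⊕ (Fin k → V') → Prop, Equivalence R ∧
    Compat p R G G Sum.inl Sum.inl ∧ Compat p R G H Sum.inl Sum.inr ∧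
    Compat p R H H Sum.inr Sum.inr ∧
    ∃ F : (Fin k → V) ≃ (Fin k → V'), ∀ u, R (Sum.inl u) (Sum.inr (F u))

end Pool.Agent.TH658.Dg
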