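import Pool.Agent.TH658.Dg.Flow
import Pool.Agent.H521R3.BI.Marg

/-!
# The Margulis graph
-/

set_option autoImplicit false
set_option linter.unusedSectionVars false

namespace Pool.Agent.TH658.Dg

open Finset Pool.Agent.TH658.Sos Pool.Agent.H521R3.BI

/-- The nodes. -/
abbrev MQ (m : ℕ) : Type := ZMod m × ZMod m

/-- The edges. -/
abbrev ME (m : ℕ) : Type := Fin 4 × MQ m

/-- The tail of an edge. -/
def msrc (m : ℕ) (e : ME m) : MQ m := e.2

/-- The head of an edge. -/
def mtgt (m : ℕ) (e : ME m) : MQ m := sg m e.1 e.2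

/-- Expansion of the Margulis graph. -/
theorem marg_expd (F : Type) [Field F] (m K : ℕ) [NeZero m] (h : 6400 * K ≤ m ^ 2) :
    Expd F (msrc m) (mtgt m) (1600 * K) K := by
  classical
  have hm : 0 < m := Nat.pos_of_ne_zero (NeZero.ne m)
  have key : ∀ (y : MQ m → F) (W : Finset (ME m)), wt y ≤ 2 * (1600 * K) →
      (∀ e, e ∉ W → cob (msrc m) (mtgt m) y e = 0) → wt y ≤ 1600 * W.card := by
    intro y W h1 h2
    set S : Finset (MQ m) := univ.filter fun v => y v ≠ 0 with hS
    have hSw : S.card = wt y := by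
      unfold wt
      exact congrArg Finset.card (by rw [hS])
    have h3 := sg_expand m S
    have h4 : ∑ k, (S.filter (fun v => sg m k v ∉ S)).card ≤ W.card := by
      have h5 : ∑ k, (S.filter (fun v => sg m k v ∉ S)).card =
          ((univ : Finset (Fin 4)).sigma fun k => S.filter (fun v => sg m k v ∉ S)).card := by
        rw [Finset.card_sigma]
      rw [h5]
      refine Finset.card_le_card_of_injOn (fun x => ((x.1, x.2) : ME m)) ?_ ?_
      · rintro ⟨k, v⟩ hx
        rw [Finset.mem_coe, Finset.mem_sigma] at hx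
        have hx2 := Finset.mem_filter.1 hx.2
        simp only at hx2
        by_contra h6
        have h7 := h2 (k, v) h6
        unfold cob at h7
        have h8 : y (sg m k v) = 0 := by
          by_contra h9
          exact hx2.2 (Finset.mem_filter.2 ⟨Finset.mem_univ _, h9⟩)
        have h10 : y v ≠ 0 := (Finset.mem_filter.1 hx2.1).2
        have h11 : mtgt m (k, v) = sg m k v := rfl
        have h12 : msrc m (k, v) = v := rfl
        rw [h11, h12, h8, zero_sub, neg_eq_zero] at h7
        exact h10 h7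
      · rintro ⟨k, v⟩ _ ⟨k', v'⟩ _ hx
        simp only [Prod.mk.injEq] at hx
        obtain ⟨rfl, rfl⟩ := hx
        rfl
    have h5 : (∑ k, ((S.filter (fun v => sg m k v ∉ S)).card : ℝ)) ≤ W.card := by
      exact_mod_cast h4
    have hm2 : (0 : ℝ) < (m : ℝ) ^ 2 := by
      have : (0 : ℝ) < m := by exact_mod_cast hm
      positivity
    have h6 : (S.card : ℝ) ≤ (m : ℝ) ^ 2 / 2 := by
      have h7 : 2 * S.card ≤ m ^ 2 := by omega
      have h8 : (2 * S.card : ℝ) ≤ (m : ℝ) ^ 2 := by exact_mod_cast h7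
      linarith
    have h7 : (S.card : ℝ) * ((m : ℝ) ^ 2 / 2) ≤ 800 * (m : ℝ) ^ 2 * W.card := by
      have h8 : (S.card : ℝ) * ((m : ℝ) ^ 2 / 2) ≤ (S.card : ℝ) * ((m : ℝ) ^ 2 - S.card) := by
        apply mul_le_mul_of_nonneg_left _ (Nat.cast_nonneg _)
        linarith
      have h9 : 800 * (m : ℝ) ^ 2 * (∑ k, ((S.filter (fun v => sg m k v ∉ S)).card : ℝ)) ≤
          800 * (m : ℝ) ^ 2 * W.card := by
        apply mul_le_mul_of_nonneg_left h5
        positivity
      linarith
    have h8 : (S.card : ℝ) ≤ 1600 * W.card := by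
      by_contra h9
      push Not at h9
      have h10 : 1600 * (W.card : ℝ) * ((m : ℝ) ^ 2 / 2) <
          (S.card : ℝ) * ((m : ℝ) ^ 2 / 2) := by
        apply mul_lt_mul_of_pos_right h9
        linarith
      nlinarith
    rw [← hSw]
    exact_mod_cast h8
  refine ⟨fun y W h1 h2 h3 => (key y W h1 h3).trans (Nat.mul_le_mul_left _ h2),
    fun y h1 h2 => ?_⟩
  have h3 := key y ∅ (by omega) fun e _ => h2 e
  rw [Finset.card_empty, mul_zero] at h3
  unfold wt at h3
  have h4 := Finset.card_eq_zero.1 (Nat.le_zero.1 h3)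
  funext v
  by_contra h5
  have h6 : v ∈ univ.filter fun v => y v ≠ 0 := Finset.mem_filter.2 ⟨Finset.mem_univ _, h5⟩
  rw [h4] at h6
  exact Finset.notMem_empty _ h6

/-- The eight edges at a node. -/
def mport (m : ℕ) (v : MQ m) : Fin 4 ⊕ Fin 4 → ME m
  | Sum.inl k => (k, (sg m k).symm v)
  | Sum.inr k => (k, v)

/-- The signs of the edges at a node. -/
def msgn : Fin 4 ⊕ Fin 4 → ℤ
  | Sum.inl _ => 1
  | Sum.inr _ => -1

theorem mport_bd (m : ℕ) [NeZero m] {A : Type} [AddCommGroup A] (M : ME m → A) (v : MQ m) :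
    ∑ j, msgn j • M (mport m v j) = bd (msrc m) (mtgt m) M v := by
  classical
  unfold bd
  rw [Fintype.sum_sum_type, Finset.sum_sub_distrib, Fintype.sum_prod_type, Fintype.sum_prod_type,
    sub_eq_add_neg]
  congr 1
  · refine Finset.sum_congr rfl fun k _ => ?_
    show (1 : ℤ) • M (k, (sg m k).symm v) = ∑ w, if sg m k w = v then M (k, w) else 0
    have h1 : ∀ w, (if sg m k w = v then M (k, w) else 0) =
        if w = (sg m k).symm v then M (k, w) else 0 := by
      intro w
      by_cases h : sg m k w = v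
      · rw [if_pos h, if_pos ((Equiv.eq_symm_apply _).2 h)]
      · rw [if_neg h, if_neg fun h' => h ((Equiv.eq_symm_apply _).1 h')]
    rw [Finset.sum_congr rfl fun w _ => h1 w, Finset.sum_ite_eq']
    simp
  · rw [← Finset.sum_neg_distrib]
    refine Finset.sum_congr rfl fun k _ => ?_
    show (-1 : ℤ) • M (k, v) = -∑ w, if w = v then M (k, w) else 0
    rw [Finset.sum_ite_eq']
    simp

theorem mport_inc (m : ℕ) (v : MQ m) (e : ME m) :
    (mtgt m e = v ∨ msrc m e = v) ↔ ∃ j, mport m v j = e := by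
  obtain ⟨k, w⟩ := e
  constructor
  · rintro (h | h)
    · refine ⟨Sum.inl k, ?_⟩
      show (k, (sg m k).symm v) = (k, w)
      rw [← h]
      show (k, (sg m k).symm (sg m k w)) = (k, w)
      rw [Equiv.symm_apply_apply]
    · refine ⟨Sum.inr k, ?_⟩
      show (k, v) = (k, w)
      rw [← h]
      rfl
  · rintro ⟨j | j, h⟩
    · left
      have h1 : (j, (sg m j).symm v) = (k, w) := h
      rw [Prod.mk.injEq] at h1
      obtain ⟨rfl, h2⟩ := h1
      show sg m j w = v
      rw [← h2, Equiv.apply_symm_apply]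
    · right
      have h1 : (j, v) = (k, w) := h
      rw [Prod.mk.injEq] at h1
      exact h1.2.symm

end Pool.Agent.TH658.Dg
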