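import Pool.Agent.TH658.Dg.Tour

/-!
# Isomorphisms between the tournaments preserve the classes
-/

set_option autoImplicit false
set_option linter.unusedSectionVars false

namespace Pool.Agent.TH658.Dg

open Finset Pool.Agent.TH658.Sos

/-- Half of the nonzero elements of a group. -/
noncomputable def kap (A : Type) [AddCommGroup A] [Fintype A] : ℕ := by
  classical
  exact (univ.filter fun w : A => enc w < enc (-w)).card

theorem two_kap {A : Type} [AddCommGroup A] [Fintype A] (h2 : ∀ a : A, a + a = 0 → a = 0) :
    2 * kap A + 1 = Fintype.card A := by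
  classical
  have h1 : (univ.filter fun w : A => enc (-w) < enc w).card = kap A := by
    unfold kap
    refine Finset.card_bij' (fun w _ => -w) (fun w _ => -w) ?_ ?_ ?_ ?_
    · intro w hw
      rw [Finset.mem_filter] at hw ⊢
      exact ⟨Finset.mem_univ _, by rw [neg_neg]; exact hw.2⟩
    · intro w hw
      rw [Finset.mem_filter] at hw ⊢
      exact ⟨Finset.mem_univ _, by rw [neg_neg]; exact hw.2⟩
    · intro w _
      exact neg_neg w
    · intro w _
      exact neg_neg w
  have h3 : (univ.filter fun w : A => enc w = enc (-w)).card = 1 := by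
    rw [Finset.card_eq_one]
    refine ⟨0, ?_⟩
    ext w
    rw [Finset.mem_filter, Finset.mem_singleton]
    constructor
    · rintro ⟨-, h⟩
      have h4 := enc_inj h
      refine h2 w ?_
      nth_rw 2 [h4]
      exact add_neg_cancel w
    · rintro rfl
      exact ⟨Finset.mem_univ _, by rw [neg_zero]⟩
  have h4 : (univ : Finset A) = (univ.filter fun w : A => enc w < enc (-w)) ∪
      ((univ.filter fun w : A => enc (-w) < enc w) ∪ univ.filter fun w : A => enc w = enc (-w)) := by
    ext w
    simp only [Finset.mem_univ, Finset.mem_union, Finset.mem_filter, true_and, true_iff]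
    omega
  rw [← Finset.card_univ, h4, Finset.card_union_of_disjoint, Finset.card_union_of_disjoint, h1, h3]
  · unfold kap
    omega
  · rw [Finset.disjoint_filter]
    intro w _ h5
    omega
  · rw [Finset.disjoint_union_right, Finset.disjoint_filter, Finset.disjoint_filter]
    exact ⟨fun w _ h5 => by omega, fun w _ h5 => by omega⟩

theorem card_arcG {A : Type} [AddCommGroup A] [Fintype A] [DecidableEq A] (x : A)
    [DecidablePred fun y : A => arcG x y] :
    (univ.filter fun y : A => arcG x y).card = kap A := by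
  classical
  unfold kap
  refine Finset.card_bij' (fun y _ => y - x) (fun w _ => w + x) ?_ ?_ ?_ ?_
  · intro y hy
    rw [Finset.mem_filter] at hy ⊢
    refine ⟨Finset.mem_univ _, ?_⟩
    rw [neg_sub]
    exact hy.2
  · intro w hw
    rw [Finset.mem_filter] at hw ⊢
    refine ⟨Finset.mem_univ _, ?_⟩
    unfold arcG
    have h1 : w + x - x = w := by abel
    have h2 : x - (w + x) = -w := by abel
    rw [h1, h2]
    exact hw.2
  · intro y _
    exact sub_add_cancel y x
  · intro w _
    exact add_sub_cancel_right w x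

section

variable {E Q J : Type} [Fintype E] [Fintype Q] [Fintype J] [DecidableEq J] {L : ℕ} [NeZero L]

/-- The rank of a class. -/
noncomputable def rk : Pt E Q J L → ℕ
  | .edge e _ => 2 * num (Q := Q) (Sum.inl e)
  | .node v _ => 2 * num (E := E) (Sum.inr v)
  | .pad d _ => 2 * num d + 1
  | .top => 2 * Fintype.card (E ⊕ Q)

theorem num_lt (d : E ⊕ Q) : num d < Fintype.card (E ⊕ Q) := by
  unfold num
  exact (Fintype.equivFin (E ⊕ Q) d).isLt

theorem rk_edge {x : Pt E Q J L} {e : E} {a : ZMod 15} (h : rk x = rk (Pt.edge e a : Pt E Q J L)) :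
    ∃ a', x = .edge e a' := by
  rcases x with ⟨e', a'⟩ | ⟨v', α'⟩ | ⟨d', u'⟩ | _
  · simp only [rk] at h
    have h1 := num_inj (show num (Q := Q) (Sum.inl e') = num (Q := Q) (Sum.inl e) by omega)
    refine ⟨a', ?_⟩
    rw [Sum.inl.inj h1]
  · simp only [rk] at h
    have h1 := num_inj (show num (E := E) (Sum.inr v') = num (Q := Q) (Sum.inl e) by omega)
    cases h1
  · simp only [rk] at h
    omega
  · simp only [rk] at h
    have := num_lt (Q := Q) (Sum.inl e)
    omega

theorem rk_node {x : Pt E Q J L} {v : Q} {α : J → ZMod 15}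
    (h : rk x = rk (Pt.node v α : Pt E Q J L)) : ∃ α', x = .node v α' := by
  rcases x with ⟨e', a'⟩ | ⟨v', α'⟩ | ⟨d', u'⟩ | _
  · simp only [rk] at h
    have h1 := num_inj (show num (Q := Q) (Sum.inl e') = num (E := E) (Sum.inr v) by omega)
    cases h1
  · simp only [rk] at h
    have h1 := num_inj (show num (E := E) (Sum.inr v') = num (E := E) (Sum.inr v) by omega)
    refine ⟨α', ?_⟩
    rw [Sum.inr.inj h1]
  · simp only [rk] at h
    omega
  · simp only [rk] at h
    have := num_lt (E := E) (Sum.inr v)
    omega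

theorem rk_top {x : Pt E Q J L} (h : rk x = rk (Pt.top : Pt E Q J L)) : x = .top := by
  rcases x with ⟨e', a'⟩ | ⟨v', α'⟩ | ⟨d', u'⟩ | _
  · simp only [rk] at h
    have := num_lt (Q := Q) (Sum.inl e')
    omega
  · simp only [rk] at h
    have := num_lt (E := E) (Sum.inr v')
    omega
  · simp only [rk] at h
    omega
  · rfl

variable (port : Q → J → E) (sgn : J → ℤ) (j0 : J)

open Classical in
/-- The number of vertices of larger rank. -/
noncomputable def above (x : Pt E Q J L) : ℕ := (univ.filter fun y : Pt E Q J L => rk x < rk y).card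

open Classical in
/-- The out-degree in a component. -/
noncomputable def out (c : Q → ZMod 15) (x : Pt E Q J L) : ℕ :=
  (univ.filter fun y : Pt E Q J L => arc port sgn j0 c x y).card

theorem above_le {x y : Pt E Q J L} (h : rk x ≤ rk y) : above y ≤ above x := by
  classical
  unfold above
  refine Finset.card_le_card fun z hz => ?_
  rw [Finset.mem_filter] at hz ⊢
  exact ⟨hz.1, by omega⟩

theorem above_add_le {x y : Pt E Q J L} (d : E ⊕ Q) (h1 : rk x < 2 * num d + 1)
    (h2 : 2 * num d + 1 ≤ rk y) : above y + L ≤ above x := by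
  classical
  have h3 : (univ.image fun u : ZMod L => (Pt.pad d u : Pt E Q J L)).card = L := by
    rw [Finset.card_image_of_injective _ fun u u' h => by
      injection h, Finset.card_univ, ZMod.card]
  refine le_trans (Nat.add_le_add_left h3.ge _) ?_
  unfold above
  rw [← Finset.card_union_of_disjoint]
  · refine Finset.card_le_card fun z hz => ?_
    rw [Finset.mem_union] at hz
    rw [Finset.mem_filter]
    refine ⟨Finset.mem_univ _, ?_⟩
    rcases hz with hz | hz
    · have := (Finset.mem_filter.1 hz).2
      omega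
    · obtain ⟨u, -, rfl⟩ := Finset.mem_image.1 hz
      exact h1
  · rw [Finset.disjoint_left]
    intro z hz hz'
    obtain ⟨u, -, rfl⟩ := Finset.mem_image.1 hz'
    have h4 := (Finset.mem_filter.1 hz).2
    have h5 : rk (Pt.pad d u : Pt E Q J L) = 2 * num d + 1 := rfl
    omega

/-- The out-degree of a vertex outside the pads. -/
theorem out_main {x : Pt E Q J L} (c : Q → ZMod 15) {D : ℕ} (S : Finset (Pt E Q J L))
    (hS : S.card ≤ D) (h : ∀ y, y ∉ S → (arc port sgn j0 c x y ↔ rk x < rk y)) :
    above x ≤ out port sgn j0 c x + D ∧ out port sgn j0 c x ≤ above x + D := by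
  classical
  constructor
  · unfold above out
    refine le_trans ?_ (Nat.add_le_add_left hS _)
    refine (Finset.card_le_card ?_).trans (Finset.card_union_le _ _)
    intro y hy
    rw [Finset.mem_filter] at hy
    rw [Finset.mem_union, Finset.mem_filter]
    by_cases h1 : y ∈ S
    · exact Or.inr h1
    · exact Or.inl ⟨Finset.mem_univ _, (h y h1).2 hy.2⟩
  · unfold above out
    refine le_trans ?_ (Nat.add_le_add_left hS _)
    refine (Finset.card_le_card ?_).trans (Finset.card_union_le _ _)
    intro y hy
    rw [Finset.mem_filter] at hy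
    rw [Finset.mem_union, Finset.mem_filter]
    by_cases h1 : y ∈ S
    · exact Or.inr h1
    · exact Or.inl ⟨Finset.mem_univ _, (h y h1).1 hy.2⟩

theorem out_node (c : Q → ZMod 15) (v : Q) (α : J → ZMod 15) {D : ℕ}
    (hD : 15 * Fintype.card J + 15 ^ Fintype.card J ≤ D) :
    above (Pt.node v α : Pt E Q J L) ≤ out port sgn j0 c (Pt.node v α : Pt E Q J L) + D ∧
      out port sgn j0 c (Pt.node v α : Pt E Q J L) ≤ above (Pt.node v α : Pt E Q J L) + D := by
  classical
  refine out_main port sgn j0 c
    ((univ.image fun z : J × ZMod 15 => (Pt.edge (port v z.1) z.2 : Pt E Q J L)) ∪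
      univ.image fun α' : J → ZMod 15 => (Pt.node v α' : Pt E Q J L)) ?_ ?_
  · refine le_trans ((Finset.card_union_le _ _).trans ?_) hD
    refine Nat.add_le_add ?_ ?_
    · refine Finset.card_image_le.trans (le_of_eq ?_)
      rw [Finset.card_univ, Fintype.card_prod, ZMod.card, mul_comm]
    · refine Finset.card_image_le.trans (le_of_eq ?_)
      rw [Finset.card_univ, Fintype.card_fun, ZMod.card]
  · intro y hy
    rw [Finset.mem_union, Finset.mem_image, Finset.mem_image] at hy
    push Not at hy
    rcases y with ⟨e', a'⟩ | ⟨v', α'⟩ | ⟨d', u'⟩ | _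
    · simp only [arc, rk]
      rw [if_neg]
      · omega
      · rintro ⟨j, hj⟩
        exact hy.1 (j, a') (Finset.mem_univ _) (by rw [hj])
    · simp only [arc, rk]
      rw [if_neg]
      · omega
      · rintro rfl
        exact hy.2 α' (Finset.mem_univ _) rfl
    · simp only [arc, rk]
      omega
    · simp only [arc, rk, true_iff]
      have := num_lt (E := E) (Sum.inr v)
      omega

theorem out_edge {src tgt : E → Q} (hinc : ∀ v e, (∃ j, port v j = e) → tgt e = v ∨ src e = v)
    (c : Q → ZMod 15) (e : E) (a : ZMod 15) {D : ℕ}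
    (hD : 15 + 2 * 15 ^ Fintype.card J ≤ D) :
    above (Pt.edge e a : Pt E Q J L) ≤ out port sgn j0 c (Pt.edge e a : Pt E Q J L) + D ∧
      out port sgn j0 c (Pt.edge e a : Pt E Q J L) ≤ above (Pt.edge e a : Pt E Q J L) + D := by
  classical
  refine out_main port sgn j0 c
    ((univ.image fun a' : ZMod 15 => (Pt.edge e a' : Pt E Q J L)) ∪
      ((univ.image fun α' : J → ZMod 15 => (Pt.node (tgt e) α' : Pt E Q J L)) ∪
       univ.image fun α' : J → ZMod 15 => (Pt.node (src e) α' : Pt E Q J L))) ?_ ?_
  · have h1 : ∀ v : Q, (univ.image fun α' : J → ZMod 15 => (Pt.node v α' : Pt E Q J L)).card ≤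
        15 ^ Fintype.card J := by
      intro v
      refine Finset.card_image_le.trans (le_of_eq ?_)
      rw [Finset.card_univ, Fintype.card_fun, ZMod.card]
    have h2 : (univ.image fun a' : ZMod 15 => (Pt.edge e a' : Pt E Q J L)).card ≤ 15 := by
      refine Finset.card_image_le.trans (le_of_eq ?_)
      rw [Finset.card_univ, ZMod.card]
    have h3 := Finset.card_union_le (univ.image fun a' : ZMod 15 => (Pt.edge e a' : Pt E Q J L))
      ((univ.image fun α' : J → ZMod 15 => (Pt.node (tgt e) α' : Pt E Q J L)) ∪
       univ.image fun α' : J → ZMod 15 => (Pt.node (src e) α' : Pt E Q J L))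
    have h4 := Finset.card_union_le (univ.image fun α' : J → ZMod 15 =>
      (Pt.node (tgt e) α' : Pt E Q J L))
       (univ.image fun α' : J → ZMod 15 => (Pt.node (src e) α' : Pt E Q J L))
    have h5 := h1 (tgt e)
    have h6 := h1 (src e)
    omega
  · intro y hy
    rw [Finset.mem_union, Finset.mem_union, Finset.mem_image, Finset.mem_image,
      Finset.mem_image] at hy
    push Not at hy
    rcases y with ⟨e', a'⟩ | ⟨v', α'⟩ | ⟨d', u'⟩ | _
    · simp only [arc, rk]
      rw [if_neg]
      · omega
      · rintro rfl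
        exact hy.1 a' (Finset.mem_univ _) rfl
    · simp only [arc, rk]
      rw [if_neg]
      · omega
      · intro h
        rcases hinc v' e h with h1 | h1
        · exact hy.2.1 α' (Finset.mem_univ _) (by rw [h1])
        · exact hy.2.2 α' (Finset.mem_univ _) (by rw [h1])
    · simp only [arc, rk]
      omega
    · simp only [arc, rk, true_iff]
      have := num_lt (Q := Q) (Sum.inl e)
      omega

theorem out_pad (c : Q → ZMod 15) (d : E ⊕ Q) (u : ZMod L) :
    out port sgn j0 c (Pt.pad d u : Pt E Q J L) =
      above (Pt.pad d u : Pt E Q J L) + kap (ZMod L) := by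
  classical
  rw [← card_arcG u]
  have h1 : (univ.filter fun y : ZMod L => arcG u y).card =
      ((univ.filter fun y : ZMod L => arcG u y).image
        fun y => (Pt.pad d y : Pt E Q J L)).card := by
    rw [Finset.card_image_of_injective _ fun u u' h => by injection h]
  rw [h1]
  unfold out above
  rw [← Finset.card_union_of_disjoint]
  · congr 1
    ext y
    rw [Finset.mem_union, Finset.mem_filter, Finset.mem_filter, Finset.mem_image]
    simp only [Finset.mem_univ, true_and, Finset.mem_filter]
    rcases y with ⟨e', a'⟩ | ⟨v', α'⟩ | ⟨d', u'⟩ | _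
    · simp only [arc, rk, reduceCtorEq, and_false, exists_false, or_false]
      omega
    · simp only [arc, rk, reduceCtorEq, and_false, exists_false, or_false]
      omega
    · simp only [arc, rk]
      by_cases h : d = d'
      · subst h
        simp only [if_true, lt_irrefl, false_or]
        constructor
        · intro h2
          exact ⟨u', h2, rfl⟩
        · rintro ⟨w, h2, h3⟩
          injection h3 with _ h4
          rwa [h4] at h2
      · rw [if_neg h]
        constructor
        · intro h2
          left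
          omega
        · rintro (h2 | ⟨w, -, h3⟩)
          · omega
          · injection h3 with h4
            exact absurd h4 h
    · simp only [arc, rk, true_iff]
      left
      have := num_lt d
      omega
  · rw [Finset.disjoint_left]
    intro z hz hz'
    obtain ⟨w, -, rfl⟩ := Finset.mem_image.1 hz'
    have h4 := (Finset.mem_filter.1 hz).2
    simp only [rk] at h4
    omega

theorem out_top (c : Q → ZMod 15) : out port sgn j0 c (Pt.top : Pt E Q J L) = 0 := by
  classical
  unfold out
  rw [Finset.card_eq_zero, Finset.filter_eq_empty_iff]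
  intro y _ h
  simp only [arc] at h

/-- Vertices of smaller rank have larger out-degree. -/
theorem out_lt {src tgt : E → Q} (hinc : ∀ v e, (∃ j, port v j = e) → tgt e = v ∨ src e = v)
    {D : ℕ} (hD1 : 15 * Fintype.card J + 15 ^ Fintype.card J ≤ D)
    (hD2 : 15 + 2 * 15 ^ Fintype.card J ≤ D) (hL : L = 2 * D + 3)
    (hL2 : ∀ a : ZMod L, a + a = 0 → a = 0) (c c' : Q → ZMod 15) {x y : Pt E Q J L}
    (h : rk x < rk y) : out port sgn j0 c' y < out port sgn j0 c x := by
  have hk := two_kap hL2
  rw [ZMod.card] at hk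
  have hyo : (out port sgn j0 c' y ≤ above y + D) ∨
      (out port sgn j0 c' y = above y + kap (ZMod L)) ∨ out port sgn j0 c' y = 0 := by
    rcases y with ⟨e', a'⟩ | ⟨v', α'⟩ | ⟨d', u'⟩ | _
    · exact Or.inl (out_edge port sgn j0 hinc c' e' a' hD2).2
    · exact Or.inl (out_node port sgn j0 c' v' α' hD1).2
    · exact Or.inr (Or.inl (out_pad port sgn j0 c' d' u'))
    · exact Or.inr (Or.inr (out_top port sgn j0 c'))
  rcases x with ⟨e, a⟩ | ⟨v, α⟩ | ⟨d, u⟩ | _
  · have h1 := (out_edge port sgn j0 hinc c e a hD2 (L := L)).1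
    have h2 := above_add_le (x := (Pt.edge e a : Pt E Q J L)) (y := y) (Sum.inl e)
      (by simp only [rk]; omega) (by
        have h5 : rk (Pt.edge e a : Pt E Q J L) = 2 * num (Q := Q) (Sum.inl e) := rfl
        omega)
    omega
  · have h1 := (out_node port sgn j0 c v α hD1 (L := L)).1
    have h2 := above_add_le (x := (Pt.node v α : Pt E Q J L)) (y := y) (Sum.inr v)
      (by simp only [rk]; omega) (by
        have h5 : rk (Pt.node v α : Pt E Q J L) = 2 * num (E := E) (Sum.inr v) := rfl
        omega)
    omega
  · have h1 := out_pad port sgn j0 c d u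
    rcases y with ⟨e', a'⟩ | ⟨v', α'⟩ | ⟨d', u'⟩ | _
    · have h2 := above_le h.le
      have h3 := (out_edge port sgn j0 hinc c' e' a' hD2 (L := L)).2
      omega
    · have h2 := above_le h.le
      have h3 := (out_node port sgn j0 c' v' α' hD1 (L := L)).2
      omega
    · have h2 := above_add_le (x := (Pt.pad d u : Pt E Q J L)) (y := (Pt.pad d' u' : Pt E Q J L))
        d' (by simp only [rk] at h ⊢; omega) (by simp only [rk]; omega)
      have h3 := out_pad port sgn j0 c' d' u'
      omega
    · have h3 := out_top (L := L) port sgn j0 c'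
      omega
  · exfalso
    have h1 : rk y ≤ 2 * Fintype.card (E ⊕ Q) := by
      rcases y with ⟨e', a'⟩ | ⟨v', α'⟩ | ⟨d', u'⟩ | _
      · simp only [rk]
        have := num_lt (Q := Q) (Sum.inl e')
        omega
      · simp only [rk]
        have := num_lt (E := E) (Sum.inr v')
        omega
      · simp only [rk]
        have := num_lt d'
        omega
      · simp only [rk]
        exact le_rfl
    have h5 : rk (Pt.top : Pt E Q J L) = 2 * Fintype.card (E ⊕ Q) := rfl
    omega

open Classical in
theorem card_tour (c : ZMod 3 → Q → ZMod 15) (x : ZMod 3 × Pt E Q J L) :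
    (univ.filter fun y => tour port sgn j0 c x y).card =
      out port sgn j0 (c x.1) x.2 + Fintype.card (Pt E Q J L) := by
  obtain ⟨i, x⟩ := x
  have h1 : (univ.filter fun y => tour port sgn j0 c (i, x) y).card =
      ∑ i' : ZMod 3, (univ.filter fun y => tour port sgn j0 c (i, x) (i', y)).card := by
    rw [Finset.card_filter, Fintype.sum_prod_type]
    exact Finset.sum_congr rfl fun i' _ => (Finset.card_filter _ _).symm
  have h2 : ∀ i', (univ.filter fun y => tour port sgn j0 c (i, x) (i', y)).card =
      if i' = i then out port sgn j0 (c i) x else if i' = i + 1 then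
        Fintype.card (Pt E Q J L) else 0 := by
    intro i'
    by_cases h : i' = i
    · subst h
      rw [if_pos rfl]
      unfold out
      congr 1
      ext y
      simp [tour]
    · rw [if_neg h]
      by_cases h3 : i' = i + 1
      · rw [if_pos h3, ← Finset.card_univ]
        congr 1
        ext y
        simp [tour, h3]
      · rw [if_neg h3, Finset.card_eq_zero, Finset.filter_eq_empty_iff]
        intro y _ h4
        simp only [tour] at h4
        rw [if_neg (Ne.symm h)] at h4
        exact h3 h4
  rw [h1, Finset.sum_congr rfl fun i' _ => h2 i', Finset.sum_ite, Finset.sum_ite]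
  simp only [Finset.sum_const_zero, add_zero]
  rw [Finset.filter_eq', if_pos (Finset.mem_univ _), Finset.sum_singleton]
  congr 1
  rw [Finset.sum_eq_single (i + 1)]
  · intro b hb hb2
    rw [Finset.mem_filter] at hb
    exact absurd hb.2 hb2
  · intro h3
    exfalso
    apply h3
    rw [Finset.mem_filter, Finset.mem_filter]
    refine ⟨⟨Finset.mem_univ _, ?_⟩, rfl⟩
    intro h4
    revert h4
    have : ∀ i : ZMod 3, ¬ i + 1 = i := by decide
    exact this i

/-- Isomorphisms preserve the ranks. -/
theorem rk_iso {src tgt : E → Q} (hinc : ∀ v e, (∃ j, port v j = e) → tgt e = v ∨ src e = v)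
    {D : ℕ} (hD1 : 15 * Fintype.card J + 15 ^ Fintype.card J ≤ D)
    (hD2 : 15 + 2 * 15 ^ Fintype.card J ≤ D) (hL : L = 2 * D + 3)
    (hL2 : ∀ a : ZMod L, a + a = 0 → a = 0) (c c' : ZMod 3 → Q → ZMod 15)
    (φ : (ZMod 3 × Pt E Q J L) ≃ (ZMod 3 × Pt E Q J L))
    (hφ : ∀ x y, tour port sgn j0 c x y ↔ tour port sgn j0 c' (φ x) (φ y))
    (x : ZMod 3 × Pt E Q J L) : rk (φ x).2 = rk x.2 := by
  classical
  have h1 : (univ.filter fun y => tour port sgn j0 c x y).card =
      (univ.filter fun y => tour port sgn j0 c' (φ x) y).card := by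
    refine Finset.card_bij' (fun y _ => φ y) (fun y _ => φ.symm y) ?_ ?_ ?_ ?_
    · intro y hy
      rw [Finset.mem_filter] at hy ⊢
      exact ⟨Finset.mem_univ _, (hφ x y).1 hy.2⟩
    · intro y hy
      rw [Finset.mem_filter] at hy ⊢
      refine ⟨Finset.mem_univ _, (hφ _ _).2 ?_⟩
      rw [Equiv.apply_symm_apply]
      exact hy.2
    · intro y _
      exact φ.symm_apply_apply y
    · intro y _
      exact φ.apply_symm_apply y
  rw [card_tour, card_tour] at h1
  rcases lt_trichotomy (rk (φ x).2) (rk x.2) with h | h | h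
  · have := out_lt port sgn j0 hinc hD1 hD2 hL hL2 (c' (φ x).1) (c x.1) h
    omega
  · exact h
  · have := out_lt port sgn j0 hinc hD1 hD2 hL hL2 (c x.1) (c' (φ x).1) h
    omega

/-- The tournaments are not isomorphic. -/
theorem not_iso [DecidableEq Q] {src tgt : E → Q}
    (hinc : ∀ v e, (∃ j, port v j = e) → tgt e = v ∨ src e = v)
    (hbd : ∀ (M : E → ZMod 15) v, ∑ j, sgn j • M (port v j) = bd src tgt M v)
    (hj0 : sgn j0 = 1)
    {D : ℕ} (hD1 : 15 * Fintype.card J + 15 ^ Fintype.card J ≤ D)
    (hD2 : 15 + 2 * 15 ^ Fintype.card J ≤ D) (hL : L = 2 * D + 3)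
    (hL2 : ∀ a : ZMod L, a + a = 0 → a = 0) (c c' : ZMod 3 → Q → ZMod 15)
    (hc : ∀ v, c 0 v = 0) (hc' : ∀ i, ∑ v, c' i v ≠ 0) :
    ¬ ∃ φ : (ZMod 3 × Pt E Q J L) ≃ (ZMod 3 × Pt E Q J L),
      ∀ x y, tour port sgn j0 c x y ↔ tour port sgn j0 c' (φ x) (φ y) := by
  classical
  rintro ⟨φ, hφ⟩
  have hrk := rk_iso port sgn j0 hinc hD1 hD2 hL hL2 c c' φ hφ
  have htop : ∀ i, ∃ k, φ (i, .top) = (k, .top) := fun i =>
    ⟨(φ (i, .top)).1, Prod.ext rfl (rk_top (hrk (i, .top)))⟩
  choose σ hσ using htop
  have hσ1 : ∀ i, σ (i + 1) = σ i + 1 := by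
    intro i
    have h1 : tour port sgn j0 c ((i, .top) : ZMod 3 × Pt E Q J L) (i + 1, .top) := by
      unfold tour
      rw [if_neg]
      have : ∀ i : ZMod 3, ¬ i = i + 1 := by decide
      exact this i
    rw [hφ, hσ, hσ] at h1
    unfold tour at h1
    by_cases h2 : σ i = σ (i + 1)
    · rw [if_pos h2] at h1
      simp only [arc] at h1
    · rw [if_neg h2] at h1
      exact h1
  have hcomp : ∀ x : Pt E Q J L, x ≠ .top → (φ (0, x)).1 = σ 0 := by
    intro x hx
    have h1 : tour port sgn j0 c ((2, .top) : ZMod 3 × Pt E Q J L) (0, x) := by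
      unfold tour
      have h2 : ¬ (2 : ZMod 3) = 0 := by decide
      rw [if_neg h2]
      show (0 : ZMod 3) = 2 + 1
      decide
    rw [hφ, hσ] at h1
    unfold tour at h1
    by_cases h2 : σ 2 = (φ (0, x)).1
    · rw [if_pos h2] at h1
      simp only [arc] at h1
    · rw [if_neg h2] at h1
      rw [h1]
      show σ 2 + 1 = σ 0
      rw [← hσ1]
      congr 1
  have hedge : ∀ e : E, ∃ t, φ (0, .edge e 0) = (σ 0, .edge e t) := by
    intro e
    obtain ⟨t, ht⟩ := rk_edge (hrk (0, .edge e 0))
    exact ⟨t, Prod.ext (hcomp _ (by simp)) ht⟩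
  choose t ht using hedge
  have hnode : ∀ v : Q, ∃ α, φ (0, .node v 0) = (σ 0, .node v α) := by
    intro v
    obtain ⟨α, hα⟩ := rk_node (hrk (0, .node v 0))
    exact ⟨α, Prod.ext (hcomp _ (by simp)) hα⟩
  choose α hα using hnode
  have hval : ∀ v j, t (port v j) = α v j + if j = j0 then
      c' (σ 0) v - ∑ i, sgn i • α v i else 0 := by
    intro v j
    have h1 : tour port sgn j0 c ((0, .node v 0) : ZMod 3 × Pt E Q J L)
        (0, .edge (port v j) 0) := by
      unfold tour
      rw [if_pos rfl]
      simp only [arc]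
      rw [if_pos ⟨j, rfl⟩]
      intro j' _
      rw [hc]
      simp
    rw [hφ, hα, ht] at h1
    unfold tour at h1
    rw [if_pos rfl] at h1
    simp only [arc] at h1
    rw [if_pos ⟨j, rfl⟩] at h1
    exact h1 j rfl
  have hsol : ∀ v, bd src tgt t v = c' (σ 0) v := by
    intro v
    rw [← hbd]
    have h1 : ∀ j, sgn j • t (port v j) = sgn j • α v j +
        if j = j0 then c' (σ 0) v - ∑ i, sgn i • α v i else 0 := by
      intro j
      rw [hval, smul_add]
      congr 1
      by_cases h2 : j = j0
      · rw [if_pos h2, h2, hj0, one_smul]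
      · rw [if_neg h2, smul_zero]
    rw [Finset.sum_congr rfl fun j _ => h1 j, Finset.sum_add_distrib, Finset.sum_ite_eq']
    simp
  apply hc' (σ 0)
  rw [← Finset.sum_congr rfl fun v _ => hsol v]
  exact sum_bd src tgt t

end

end Pool.Agent.TH658.Dg
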