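import Pool.Agent.TH658.Dg.Rigid
import Pool.Agent.TH658.Dg.Pc
import Pool.Agent.TH658.Dg.Im

/-!
# Local isomorphisms between the tournaments
-/

set_option autoImplicit false
set_option linter.unusedSectionVars false

namespace Pool.Agent.TH658.Dg

open Finset Pool.Agent.TH658.Sos

section

variable {E Q J : Type} [Fintype E] [DecidableEq E] [Fintype Q] [DecidableEq Q] [Fintype J]
  [DecidableEq J] {L : ℕ} [NeZero L] (port : Q → J → E) (sgn : J → ℤ) (j0 : J)

/-- The edges that are seen by a vertex. -/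
def lev : ZMod 3 × Pt E Q J L → Finset E
  | (_, .edge e _) => {e}
  | (_, .node v _) => univ.image (port v)
  | (_, .pad _ _) => ∅
  | (_, .top) => ∅

theorem lev_bij (ρ : ZMod 3) (M : ZMod 3 → E → ZMod 15) (u : ZMod 3 × Pt E Q J L) :
    lev port (bij port ρ M u) = lev port u := by
  obtain ⟨i, x⟩ := u
  rcases x with ⟨e, a⟩ | ⟨v, α⟩ | ⟨d, w⟩ | _ <;> rfl

theorem lev_card (u : ZMod 3 × Pt E Q J L) (j0 : J) : (lev port u).card ≤ Fintype.card J := by
  have hJ : 1 ≤ Fintype.card J := Fintype.card_pos_iff.2 ⟨j0⟩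
  obtain ⟨i, x⟩ := u
  rcases x with ⟨e, a⟩ | ⟨v, α⟩ | ⟨d, w⟩ | _
  · exact (Finset.card_singleton e).le.trans hJ
  · exact Finset.card_image_le.trans (le_of_eq Finset.card_univ)
  · exact Nat.zero_le _
  · exact Nat.zero_le _

variable {p : ℕ} [Fact p.Prime] {src tgt : E → Q} {s K : ℕ}

/-- The local isomorphisms given by flows modulo `p`. -/
noncomputable def tAct (hE : Expd (ZMod p) src tgt s K) (hs : 1 ≤ s)
    (hinc : ∀ v e, tgt e = v ∨ src e = v → ∃ j, port v j = e)
    (hbd : ∀ (M : E → ZMod p) v, ∑ j, sgn j • M (port v j) = bd src tgt M v)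
    (θ : ZMod 3 → (ZMod p →+ ZMod 15)) (ρ : ZMod 3) (b : Q → ZMod p)
    (c c' : ZMod 3 → Q → ZMod 15) (hθ : ∀ i v, θ i (b v) = c' (i + ρ) v - c i v) :
    Act (flowSys hE b) (tour (L := L) port sgn j0 c) (tour (L := L) port sgn j0 c') where
  b M := bij port ρ fun i e => θ i (M e)
  lv := lev port
  lv' := lev port
  c := Fintype.card J
  inv M n u hn := by
    obtain ⟨i, x⟩ := u
    rcases x with ⟨e, a⟩ | ⟨v, α⟩ | ⟨d, w⟩ | _
    · show (i + ρ, Pt.edge e (a + θ i ((M + n) e))) = (i + ρ, Pt.edge e (a + θ i (M e)))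
      have h1 : n e = 0 := hn e (Finset.mem_singleton_self e)
      rw [Pi.add_apply, h1, add_zero]
    · show (i + ρ, Pt.node v (α + fun j => θ i ((M + n) (port v j)))) =
        (i + ρ, Pt.node v (α + fun j => θ i (M (port v j))))
      congr 3
      funext j
      have h1 : n (port v j) = 0 := hn _ (Finset.mem_image_of_mem _ (Finset.mem_univ j))
      rw [Pi.add_apply, h1, add_zero]
    · rfl
    · rfl
  lev M u := lev_bij port ρ _ u
  size u := lev_card port u j0
  iso u u' M hM := by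
    refine tour_bij port sgn j0 fun v α hv i => ?_
    have h1 : bd src tgt M v = b v := by
      refine flowSys_node hE hs b hM v fun e he => ?_
      obtain ⟨j, rfl⟩ := hinc v e he
      show port v j ∈ lev port u ∪ lev port u'
      rw [Finset.mem_union]
      obtain ⟨i1, x1⟩ := u
      obtain ⟨i2, x2⟩ := u'
      rcases hv with hv | hv
      · simp only at hv
        subst hv
        exact Or.inl (Finset.mem_image_of_mem _ (Finset.mem_univ j))
      · simp only at hv
        subst hv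
        exact Or.inr (Finset.mem_image_of_mem _ (Finset.mem_univ j))
    rw [← hθ, ← h1, ← hbd, map_sum]
    exact Finset.sum_congr rfl fun l _ => (map_zsmul (θ i) _ _).symm

theorem tAct_torsor (hE : Expd (ZMod p) src tgt s K) (hs : 1 ≤ s)
    (hinc : ∀ v e, tgt e = v ∨ src e = v → ∃ j, port v j = e)
    (hbd : ∀ (M : E → ZMod p) v, ∑ j, sgn j • M (port v j) = bd src tgt M v)
    (θ : ZMod 3 → (ZMod p →+ ZMod 15)) (ρ : ZMod 3) (b : Q → ZMod p)
    (c c' : ZMod 3 → Q → ZMod 15) (hθ : ∀ i v, θ i (b v) = c' (i + ρ) v - c i v) :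
    (tAct (L := L) port sgn j0 hE hs hinc hbd θ ρ b c c' hθ).Torsor := by
  intro M h u
  have h1 : (tAct (L := L) port sgn j0 hE hs hinc hbd θ ρ b c c' hθ).b h u =
      (tAct (L := L) port sgn j0 hE hs hinc hbd θ ρ b c c' hθ).b 0
        (u.1, sh port (fun e => θ u.1 (h e)) u.2) := by
    show (u.1 + ρ, sh port (fun e => θ u.1 (h e)) u.2) =
      (u.1 + ρ, sh port (fun e => θ u.1 ((0 : E → ZMod p) e))
        (sh port (fun e => θ u.1 (h e)) u.2))
    rw [← sh_add]
    congr 3
    funext e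
    simp
  rw [h1, Equiv.symm_apply_apply]
  show (u.1 + ρ, sh port (fun e => θ u.1 ((M + h) e)) u.2) =
    (u.1 + ρ, sh port (fun e => θ u.1 (M e)) (sh port (fun e => θ u.1 (h e)) u.2))
  rw [← sh_add]
  congr 3
  funext e
  simp

end

/-! ### The numbers -/

/-- Multiplication by `5`. -/
def th3 : ZMod 3 →+ ZMod 15 :=
  AddMonoidHom.mk' (fun a => 5 * (a.val : ZMod 15)) (by decide)

/-- Multiplication by `3 k`. -/
def th5 (k : ZMod 15) : ZMod 5 →+ ZMod 15 :=
  AddMonoidHom.mk' (fun a => 3 * k * (a.val : ZMod 15)) (by revert k; decide)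

/-- The right-hand sides of the first tournament. -/
def be : ZMod 3 → ZMod 15 := ![0, 8, 1]

/-- The right-hand sides of the second tournament. -/
def be' : ZMod 3 → ZMod 15 := ![5, 13, 6]

/-- The factors for the prime number five. -/
def fa : ZMod 3 → ZMod 15 := ![2, 4, 4]

theorem num3 : ∀ i, th3 1 = be' (i + 0) - be i := by decide

theorem num5 : ∀ i, th5 (fa i) 1 = be' (i + 2) - be i := by decide

theorem be_zero : be 0 = 0 := rfl

theorem be'_ne : ∀ i, be' i ≠ 0 := by decide

theorem odd_torsion {L D : ℕ} (hL : L = 2 * D + 3) (a : ZMod L) (h : a + a = 0) : a = 0 := by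
  have h1 : ((2 * D + 3 : ℕ) : ZMod L) * a = 0 := by
    rw [← hL, ZMod.natCast_self, zero_mul]
  have h2 : ((D + 2 : ℕ) : ZMod L) * (a + a) = ((2 * D + 3 : ℕ) : ZMod L) * a + a := by
    push_cast
    ring
  rw [h, mul_zero, h1, zero_add] at h2
  exact h2.symm

section

variable (m : ℕ) [NeZero m] (L : ℕ) [NeZero L]

/-- The right-hand sides on the Margulis graph. -/
def cc (β : ZMod 3 → ZMod 15) (i : ZMod 3) (v : MQ m) : ZMod 15 := if v = 0 then β i else 0

/-- The vertices of the tournaments. -/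
abbrev TV : Type := ZMod 3 × Pt (ME m) (MQ m) (Fin 4 ⊕ Fin 4) L

/-- The tournaments on the Margulis graph. -/
def TT (β : ZMod 3 → ZMod 15) : TV m L → TV m L → Prop :=
  tour (mport m) msgn (Sum.inl 0) (cc m β)

theorem sum_cc (β : ZMod 3 → ZMod 15) (i : ZMod 3) : ∑ v, cc m β i v = β i := by
  unfold cc
  rw [Finset.sum_ite_eq']
  simp

theorem TT_not_iso {D : ℕ} (hD : D = 2 * 15 ^ 8 + 120) (hL : L = 2 * D + 3) :
    ¬ ∃ φ : TV m L ≃ TV m L, ∀ x y, TT m L be x y ↔ TT m L be' (φ x) (φ y) := by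
  refine not_iso (mport m) msgn (Sum.inl 0) (src := msrc m) (tgt := mtgt m)
    (fun v e h => (mport_inc m v e).2 h) (fun M v => mport_bd m M v) rfl (D := D) ?_ ?_ hL
    (odd_torsion hL) _ _ ?_ ?_
  · rw [Fintype.card_sum, Fintype.card_fin, hD]
    norm_num
  · rw [Fintype.card_sum, Fintype.card_fin, hD]
    norm_num
  · intro v
    unfold cc
    rw [be_zero, ite_self]
  · intro i
    rw [sum_cc]
    exact be'_ne i

/-- The acts for the prime number three. -/
noncomputable def act3 {K : ℕ} (hK : 1 ≤ K) (hm : 6400 * K ≤ m ^ 2) :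
    Act (flowSys (marg_expd (ZMod 3) m K hm) fun v => if v = 0 then (1 : ZMod 3) else 0)
      (TT m L be) (TT m L be') :=
  haveI : Fact (Nat.Prime 3) := ⟨by norm_num⟩
  tAct (mport m) msgn (Sum.inl 0) (marg_expd (ZMod 3) m K hm) (by omega)
    (fun v e h => (mport_inc m v e).1 h) (fun M v => mport_bd m M v) (fun _ => th3) 0 _ _ _
    (by
      intro i v
      unfold cc
      by_cases h : v = 0
      · rw [if_pos h, if_pos h, if_pos h]
        exact num3 i
      · rw [if_neg h, if_neg h, if_neg h, map_zero, sub_zero])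

/-- The acts for the prime number five. -/
noncomputable def act5 {K : ℕ} (hK : 1 ≤ K) (hm : 6400 * K ≤ m ^ 2) :
    haveI : Fact (Nat.Prime 5) := ⟨by norm_num⟩
    Act (flowSys (marg_expd (ZMod 5) m K hm) fun v => if v = 0 then (1 : ZMod 5) else 0)
      (TT m L be) (TT m L be') :=
  haveI : Fact (Nat.Prime 5) := ⟨by norm_num⟩
  tAct (mport m) msgn (Sum.inl 0) (marg_expd (ZMod 5) m K hm) (by omega)
    (fun v e h => (mport_inc m v e).1 h) (fun M v => mport_bd m M v) (fun i => th5 (fa i)) 2 _ _ _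
    (by
      intro i v
      unfold cc
      by_cases h : v = 0
      · rw [if_pos h, if_pos h, if_pos h]
        exact num5 i
      · rw [if_neg h, if_neg h, if_neg h, map_zero, sub_zero])

end

end Pool.Agent.TH658.Dg
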