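import Pool.Agent.TH658.Dg.TAct

/-!
# The main theorems on tournaments
-/

set_option autoImplicit false
set_option linter.unusedSectionVars false

namespace Pool.Agent.TH658.Dg

open Finset Pool.Agent.TH658.Sos

theorem card_TV (m : ℕ) [NeZero m] (L : ℕ) [NeZero L] :
    Fintype.card (TV m L) = 3 * (4 * m ^ 2 * 15 + (m ^ 2 * 15 ^ 8 + ((4 * m ^ 2 + m ^ 2) * L + 1))) := by
  rw [Fintype.card_prod, ZMod.card, Fintype.card_congr Pt.equiv]
  simp only [Fintype.card_sum, Fintype.card_prod, ZMod.card, Fintype.card_fin, Fintype.card_fun,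
    Fintype.card_unit, Nat.reduceAdd]
  ring_nf

/-- The construction for a given bound. -/
theorem exists_side (K : ℕ) (hK : 1 ≤ K) : ∃ m : ℕ, 0 < m ∧ 6400 * K ≤ m ^ 2 ∧
    m ^ 2 ≤ 25600 * K := by
  refine ⟨80 * (Nat.sqrt K + 1), by omega, ?_, ?_⟩
  · have h1 := Nat.lt_succ_sqrt K
    have h2 : (80 * (Nat.sqrt K + 1)) ^ 2 = 6400 * ((Nat.sqrt K + 1) * (Nat.sqrt K + 1)) := by ring
    rw [h2]
    exact Nat.mul_le_mul_left _ h1.le
  · have h1 := Nat.sqrt_le K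
    have h3 : 1 ≤ Nat.sqrt K := by
      rw [Nat.le_sqrt]
      omega
    have h2 : (80 * (Nat.sqrt K + 1)) ^ 2 = 6400 * ((Nat.sqrt K + 1) * (Nat.sqrt K + 1)) := by ring
    rw [h2]
    nlinarith

/-- The tournaments for the bound `K`. -/
theorem exists_tour (K : ℕ) (hK : 1 ≤ K) : ∃ (V : Type) (_ : Fintype V) (T T' : V → V → Prop),
    3 ≤ Fintype.card V ∧ Fintype.card V ≤ 10 ^ 16 * K ∧ IsTournament T ∧ IsTournament T' ∧
    (¬ ∃ φ : V ≃ V, ∀ x y, T x y ↔ T' (φ x) (φ y)) ∧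
    (∃ (X L : Type) (_ : AddCommGroup X) (_ : Fintype X) (_ : SemilatticeSup L) (_ : OrderBot L)
      (S : Sys X L) (A : Act S T T'), A.Torsor ∧ A.c = 8 ∧ S.K = K ∧
        ∃ r, Fintype.card X = 3 ^ r) ∧
    (∃ (X L : Type) (_ : AddCommGroup X) (_ : Fintype X) (_ : SemilatticeSup L) (_ : OrderBot L)
      (S : Sys X L) (A : Act S T T'), A.Torsor ∧ A.c = 8 ∧ S.K = K ∧
        ∃ r, Fintype.card X = 5 ^ r) := by
  obtain ⟨m, hm0, hm1, hm2⟩ := exists_side K hK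
  have : NeZero m := ⟨by omega⟩
  obtain ⟨D, hD⟩ : ∃ D : ℕ, D = 2 * 15 ^ 8 + 120 := ⟨_, rfl⟩
  obtain ⟨L, hL⟩ : ∃ L : ℕ, L = 2 * D + 3 := ⟨_, rfl⟩
  have : NeZero L := ⟨by omega⟩
  have hm3 : 1 ≤ m ^ 2 := Nat.one_le_pow _ _ hm0
  refine ⟨TV m L, inferInstance, TT m L be, TT m L be', ?_, ?_,
    tour_tournament _ _ _ (odd_torsion hL) _, tour_tournament _ _ _ (odd_torsion hL) _,
    TT_not_iso m L hD hL, ?_, ?_⟩
  · rw [card_TV]
    omega
  · rw [card_TV]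
    have h1 : L = 10251562743 := by
      rw [hL, hD]
      norm_num
    rw [h1]
    have h2 : 3 * (4 * m ^ 2 * 15 + (m ^ 2 * 15 ^ 8 + ((4 * m ^ 2 + m ^ 2) * 10251562743 + 1))) ≤
        200000000000 * m ^ 2 := by
      omega
    refine h2.trans ?_
    calc 200000000000 * m ^ 2 ≤ 200000000000 * (25600 * K) := Nat.mul_le_mul_left _ hm2
      _ ≤ 10 ^ 16 * K := by omega
  · have : Fact (Nat.Prime 3) := ⟨by norm_num⟩
    refine ⟨ME m → ZMod 3, Finset (ME m), inferInstance, inferInstance, inferInstance,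
      inferInstance, _, act3 m L hK hm1, ?_, ?_, rfl, ?_⟩
    · exact tAct_torsor _ _ _ _ _ _ _ _ _ _ _ _ _
    · show Fintype.card (Fin 4 ⊕ Fin 4) = 8
      rfl
    · exact ⟨Fintype.card (ME m), by rw [Fintype.card_fun, ZMod.card]⟩
  · have : Fact (Nat.Prime 5) := ⟨by norm_num⟩
    refine ⟨ME m → ZMod 5, Finset (ME m), inferInstance, inferInstance, inferInstance,
      inferInstance, _, act5 m L hK hm1, ?_, ?_, rfl, ?_⟩
    · exact tAct_torsor _ _ _ _ _ _ _ _ _ _ _ _ _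
    · show Fintype.card (Fin 4 ⊕ Fin 4) = 8
      rfl
    · exact ⟨Fintype.card (ME m), by rw [Fintype.card_fun, ZMod.card]⟩

/-- Tournaments: algebraic proofs. -/
theorem mainProofs (d : ℕ) (hd : 1 ≤ d) :
    ∃ (V : Type) (_ : Fintype V) (T T' : V → V → Prop),
      Fintype.card V ≤ 10 ^ 18 * d ∧ IsTournament T ∧ IsTournament T' ∧
      (¬ ∃ φ : V ≃ V, ∀ x y, T x y ↔ T' (φ x) (φ y)) ∧
      (∀ (K : Type) [Field K], ¬ PCRefutes K T T' d) ∧ ¬ PosRefutes T T' d := by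
  obtain ⟨V, iV, T, T', -, h1, h2, h3, h4, ⟨X, L, i1, i2, i3, i4, S, A, hA, hc, hK, r, hr⟩,
    ⟨X', L', j1, j2, j3, j4, S', A', hA', hc', hK', r', hr'⟩⟩ :=
    exists_tour (24 * (d + 1)) (by omega)
  refine ⟨V, iV, T, T', ?_, h2, h3, h4, fun K _ => ?_, ?_⟩
  · refine h1.trans ?_
    calc 10 ^ 16 * (24 * (d + 1)) ≤ 10 ^ 16 * (48 * d) := Nat.mul_le_mul_left _ (by omega)
      _ ≤ 10 ^ 18 * d := by omega
  · by_cases h5 : (3 : K) = 0
    · have h6 : (5 : K) ≠ 0 := by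
        intro h7
        have h8 : (1 : K) = 2 * 3 - 5 := by norm_num
        rw [h5, h7] at h8
        simp at h8
      refine A'.not_pcRefutes K ?_ ?_
      · rw [hr', Nat.cast_pow]
        exact pow_ne_zero _ (by exact_mod_cast h6)
      · rw [hc', hK']
        omega
    · refine A.not_pcRefutes K ?_ ?_
      · rw [hr, Nat.cast_pow]
        exact pow_ne_zero _ (by exact_mod_cast h5)
      · rw [hc, hK]
        omega
  · refine A.not_posRefutes ?_
    rw [hc, hK]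
    omega

/-- Tournaments: the invertible-map test. -/
theorem mainIM (k : ℕ) (hk : 1 ≤ k) :
    ∃ (V : Type) (_ : Fintype V) (T T' : V → V → Prop),
      Fintype.card V ≤ 10 ^ 18 * k ∧ IsTournament T ∧ IsTournament T' ∧
      (¬ ∃ φ : V ≃ V, ∀ x y, T x y ↔ T' (φ x) (φ y)) ∧
      IMEquiv 3 k T T' ∧ IMEquiv 5 k T T' := by
  obtain ⟨V, iV, T, T', -, h1, h2, h3, h4, ⟨X, L, i1, i2, i3, i4, S, A, hA, hc, hK, r, hr⟩,
    ⟨X', L', j1, j2, j3, j4, S', A', hA', hc', hK', r', hr'⟩⟩ :=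
    exists_tour (32 * k) (by omega)
  refine ⟨V, iV, T, T', ?_, h2, h3, h4, ?_, ?_⟩
  · refine h1.trans ?_
    omega
  · refine A.imEquiv hA (fun K _ hK3 => ?_) ?_ ?_
    · rw [hr, Nat.cast_pow]
      exact pow_ne_zero _ hK3
    · rw [hc, hK]
      omega
    · rw [hc, hK]
      omega
  · refine A'.imEquiv hA' (fun K _ hK3 => ?_) ?_ ?_
    · rw [hr', Nat.cast_pow]
      exact pow_ne_zero _ hK3
    · rw [hc', hK']
      omega
    · rw [hc', hK']
      omega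

end Pool.Agent.TH658.Dg
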