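import Pool.Agent.TH658.Dg.Marg
import Pool.Agent.TH658.Dg.Pe

/-!
# The tournaments
-/

set_option autoImplicit false
set_option linter.unusedSectionVars false

namespace Pool.Agent.TH658.Dg

open Finset Pool.Agent.TH658.Sos

/-- `T` is a tournament: for two different vertices there is exactly one arc between them, and there
are no loops. -/
def IsTournament {V : Type} (T : V → V → Prop) : Prop :=
  ∀ u v, (T u v → ¬ T v u) ∧ (u ≠ v → T u v ∨ T v u)

/-! ### Tournaments on groups -/

section group

variable {A : Type} [AddCommGroup A] [Fintype A]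

/-- A numbering of `A`. -/
noncomputable def enc (a : A) : ℕ := (Fintype.equivFin A a : ℕ)

theorem enc_inj {a b : A} (h : enc a = enc b) : a = b := by
  unfold enc at h
  exact (Fintype.equivFin A).injective (Fin.ext h)

/-- The arcs between elements of a group. -/
def arcG (x y : A) : Prop := enc (y - x) < enc (x - y)

theorem arcG_add (x y t : A) : arcG (x + t) (y + t) ↔ arcG x y := by
  unfold arcG
  rw [add_sub_add_right_eq_sub, add_sub_add_right_eq_sub]

theorem arcG_asymm {x y : A} (h : arcG x y) : ¬ arcG y x := lt_asymm h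

theorem arcG_total (h2 : ∀ a : A, a + a = 0 → a = 0) {x y : A} (h : x ≠ y) :
    arcG x y ∨ arcG y x := by
  refine lt_or_gt_of_ne fun h1 => h ?_
  have h3 := enc_inj h1
  have h4 : (x - y) + (x - y) = 0 := by
    nth_rw 2 [← h3]
    abel
  exact sub_eq_zero.1 (h2 _ h4)

end group

/-- The vertices of a component. -/
inductive Pt (E Q J : Type) (L : ℕ) : Type
  | edge (e : E) (a : ZMod 15)
  | node (v : Q) (α : J → ZMod 15)
  | pad (d : E ⊕ Q) (u : ZMod L)
  | top

namespace Pt

variable {E Q J : Type} {L : ℕ}

/-- The vertices of a component as a sum. -/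
def equiv : Pt E Q J L ≃ (E × ZMod 15) ⊕ (Q × (J → ZMod 15)) ⊕ ((E ⊕ Q) × ZMod L) ⊕ Unit where
  toFun
    | edge e a => Sum.inl (e, a)
    | node v α => Sum.inr (Sum.inl (v, α))
    | pad d u => Sum.inr (Sum.inr (Sum.inl (d, u)))
    | top => Sum.inr (Sum.inr (Sum.inr ()))
  invFun
    | Sum.inl x => edge x.1 x.2
    | Sum.inr (Sum.inl x) => node x.1 x.2
    | Sum.inr (Sum.inr (Sum.inl x)) => pad x.1 x.2
    | Sum.inr (Sum.inr (Sum.inr _)) => top
  left_inv x := by cases x <;> rfl
  right_inv x := by rcases x with x | x | x | x <;> rfl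

noncomputable instance [Fintype E] [Fintype Q] [Fintype J] [NeZero L] : Fintype (Pt E Q J L) := by
  classical
  exact Fintype.ofEquiv _ equiv.symm

end Pt

section

variable {E Q J : Type} [Fintype E] [Fintype Q] [Fintype J] [DecidableEq J] {L : ℕ} [NeZero L]
  (port : Q → J → E) (sgn : J → ℤ) (j0 : J)

/-- The number of a class. -/
noncomputable def num (d : E ⊕ Q) : ℕ := (Fintype.equivFin (E ⊕ Q) d : ℕ)

omit [Fintype J] [DecidableEq J] [NeZero L] in
theorem num_inj {d d' : E ⊕ Q} (h : num d = num d') : d = d' := by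
  unfold num at h
  exact (Fintype.equivFin (E ⊕ Q)).injective (Fin.ext h)

/-- The values of `α` at the edges of the node `v` fit to the value `a` at `e`. -/
def fits (c : Q → ZMod 15) (v : Q) (α : J → ZMod 15) (e : E) (a : ZMod 15) : Prop :=
  ∀ j, port v j = e → a = α j + if j = j0 then c v - ∑ i, sgn i • α i else 0

open Classical in
/-- The arcs inside a component. -/
def arc (c : Q → ZMod 15) : Pt E Q J L → Pt E Q J L → Prop
  | .node v α, .edge e a =>
      if ∃ j, port v j = e then fits port sgn j0 c v α e a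
      else num (E := E) (Sum.inr v) < num (Q := Q) (Sum.inl e)
  | .edge e a, .node v α =>
      if ∃ j, port v j = e then ¬ fits port sgn j0 c v α e a
      else num (Q := Q) (Sum.inl e) < num (E := E) (Sum.inr v)
  | .edge e a, .edge e' a' =>
      if e = e' then arcG a a' else num (Q := Q) (Sum.inl e) < num (Q := Q) (Sum.inl e')
  | .node v α, .node v' α' =>
      if v = v' then arcG α α' else num (E := E) (Sum.inr v) < num (E := E) (Sum.inr v')
  | .pad d u, .pad d' u' => if d = d' then arcG u u' else num d < num d'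
  | .pad d _, .edge e _ => num d < num (Q := Q) (Sum.inl e)
  | .pad d _, .node v _ => num d < num (E := E) (Sum.inr v)
  | .edge e _, .pad d _ => num (Q := Q) (Sum.inl e) ≤ num d
  | .node v _, .pad d _ => num (E := E) (Sum.inr v) ≤ num d
  | .top, _ => False
  | .edge _ _, .top => True
  | .node _ _, .top => True
  | .pad _ _, .top => True

theorem arc_tournament (hL : ∀ a : ZMod L, a + a = 0 → a = 0) (c : Q → ZMod 15) :
    IsTournament (arc (L := L) port sgn j0 c) := by
  have h15 : ∀ a : ZMod 15, a + a = 0 → a = 0 := by decide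
  have h15J : ∀ a : J → ZMod 15, a + a = 0 → a = 0 := fun a h => by
    funext j
    exact h15 _ (congrFun h j)
  intro x y
  rcases x with ⟨e, a⟩ | ⟨v, α⟩ | ⟨d, u⟩ | _ <;> rcases y with ⟨e', a'⟩ | ⟨v', α'⟩ | ⟨d', u'⟩ | _
  · simp only [arc]
    by_cases h : e = e'
    · subst h
      simp only [if_true]
      refine ⟨arcG_asymm, fun h => arcG_total h15 fun h' => h (by rw [h'])⟩
    · rw [if_neg h, if_neg (Ne.symm h)]
      refine ⟨fun h1 => by omega, fun _ => ?_⟩
      have : num (Q := Q) (Sum.inl e) ≠ num (Q := Q) (Sum.inl e') := fun h1 => h (by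
        have := num_inj h1
        simpa using this)
      omega
  · simp only [arc]
    by_cases h : ∃ j, port v' j = e
    · rw [if_pos h, if_pos h]
      refine ⟨id, fun _ => ?_⟩
      by_cases h1 : fits port sgn j0 c v' α' e a
      · exact Or.inr h1
      · exact Or.inl h1
    · rw [if_neg h, if_neg h]
      refine ⟨fun h1 => by omega, fun _ => ?_⟩
      have : num (Q := Q) (Sum.inl e) ≠ num (E := E) (Sum.inr v') := fun h1 => by
        have := num_inj h1
        simp at this
      omega
  · simp only [arc]
    omega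
  · simp [arc]
  · simp only [arc]
    by_cases h : ∃ j, port v j = e'
    · rw [if_pos h, if_pos h]
      refine ⟨fun h1 h2 => h2 h1, fun _ => ?_⟩
      by_cases h1 : fits port sgn j0 c v α e' a'
      · exact Or.inl h1
      · exact Or.inr h1
    · rw [if_neg h, if_neg h]
      refine ⟨fun h1 => by omega, fun _ => ?_⟩
      have : num (E := E) (Sum.inr v) ≠ num (Q := Q) (Sum.inl e') := fun h1 => by
        have := num_inj h1
        simp at this
      omega
  · simp only [arc]
    by_cases h : v = v'
    · subst h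
      simp only [if_true]
      refine ⟨arcG_asymm, fun h => arcG_total h15J fun h' => h (by rw [h'])⟩
    · rw [if_neg h, if_neg (Ne.symm h)]
      refine ⟨fun h1 => by omega, fun _ => ?_⟩
      have : num (E := E) (Sum.inr v) ≠ num (E := E) (Sum.inr v') := fun h1 => h (by
        have := num_inj h1
        simpa using this)
      omega
  · simp only [arc]
    omega
  · simp [arc]
  · simp only [arc]
    omega
  · simp only [arc]
    omega
  · simp only [arc]
    by_cases h : d = d'
    · subst h
      simp only [if_true]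
      refine ⟨arcG_asymm, fun h => arcG_total hL fun h' => h (by rw [h'])⟩
    · rw [if_neg h, if_neg (Ne.symm h)]
      refine ⟨fun h1 => by omega, fun _ => ?_⟩
      have : num d ≠ num d' := fun h1 => h (num_inj h1)
      omega
  · simp [arc]
  · simp [arc]
  · simp [arc]
  · simp [arc]
  · simp [arc]

/-- The shift by `M`. -/
def sh (M : E → ZMod 15) : Pt E Q J L ≃ Pt E Q J L where
  toFun
    | .edge e a => .edge e (a + M e)
    | .node v α => .node v (α + fun j => M (port v j))
    | .pad d u => .pad d u
    | .top => .top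
  invFun
    | .edge e a => .edge e (a - M e)
    | .node v α => .node v (α - fun j => M (port v j))
    | .pad d u => .pad d u
    | .top => .top
  left_inv x := by cases x <;> simp
  right_inv x := by cases x <;> simp

theorem sh_add (M N : E → ZMod 15) (x : Pt E Q J L) :
    sh port (M + N) x = sh port M (sh port N x) := by
  rcases x with ⟨e, a⟩ | ⟨v, α⟩ | ⟨d, u⟩ | _
  · show Pt.edge e (a + (M + N) e) = Pt.edge e (a + N e + M e)
    rw [Pi.add_apply, add_assoc, add_comm (N e)]
  · show Pt.node v (α + fun j => (M + N) (port v j)) =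
      Pt.node v (α + (fun j => N (port v j)) + fun j => M (port v j))
    congr 1
    funext j
    simp only [Pi.add_apply]
    ring
  · rfl
  · rfl

theorem fits_sh {c c' : Q → ZMod 15} {M : E → ZMod 15} {v : Q}
    (h : ∑ i, sgn i • M (port v i) = c' v - c v) (α : J → ZMod 15) (e : E) (a : ZMod 15) :
    fits port sgn j0 c v α e a ↔
      fits port sgn j0 c' v (α + fun j => M (port v j)) e (a + M e) := by
  unfold fits
  refine forall_congr' fun j => ?_
  refine forall_congr' fun hj => ?_
  have h1 : ∑ i, sgn i • (α + fun j => M (port v j)) i =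
      ∑ i, sgn i • α i + ∑ i, sgn i • M (port v i) := by
    rw [← Finset.sum_add_distrib]
    refine Finset.sum_congr rfl fun i _ => ?_
    rw [Pi.add_apply, smul_add]
  rw [h1, h, Pi.add_apply, hj]
  by_cases hj0 : j = j0
  · rw [if_pos hj0, if_pos hj0]
    constructor
    · intro h2
      rw [h2]
      ring
    · intro h2
      have h3 : a = (a + M e) - M e := by ring
      rw [h3, h2]
      ring
  · rw [if_neg hj0, if_neg hj0, add_zero, add_zero, add_left_inj]

theorem arc_sh {c c' : Q → ZMod 15} {M : E → ZMod 15} {x y : Pt E Q J L}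
    (h : ∀ v α, (x = .node v α ∨ y = .node v α) → ∑ i, sgn i • M (port v i) = c' v - c v) :
    arc port sgn j0 c x y ↔ arc port sgn j0 c' (sh port M x) (sh port M y) := by
  rcases x with ⟨e, a⟩ | ⟨v, α⟩ | ⟨d, u⟩ | _ <;> rcases y with ⟨e', a'⟩ | ⟨v', α'⟩ | ⟨d', u'⟩ | _
  · show arc port sgn j0 c (.edge e a) (.edge e' a') ↔
      arc port sgn j0 c' (.edge e (a + M e)) (.edge e' (a' + M e'))
    simp only [arc]
    by_cases h1 : e = e'
    · subst h1
      rw [if_pos rfl, if_pos rfl, arcG_add]
    · rw [if_neg h1, if_neg h1]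
  · show arc port sgn j0 c (.edge e a) (.node v' α') ↔
      arc port sgn j0 c' (.edge e (a + M e)) (.node v' (α' + fun j => M (port v' j)))
    simp only [arc]
    by_cases h1 : ∃ j, port v' j = e
    · rw [if_pos h1, if_pos h1, ← fits_sh port sgn j0 (h v' α' (Or.inr rfl))]
    · rw [if_neg h1, if_neg h1]
  · exact Iff.rfl
  · exact Iff.rfl
  · show arc port sgn j0 c (.node v α) (.edge e' a') ↔
      arc port sgn j0 c' (.node v (α + fun j => M (port v j))) (.edge e' (a' + M e'))
    simp only [arc]
    by_cases h1 : ∃ j, port v j = e'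
    · rw [if_pos h1, if_pos h1, ← fits_sh port sgn j0 (h v α (Or.inl rfl))]
    · rw [if_neg h1, if_neg h1]
  · show arc port sgn j0 c (.node v α) (.node v' α') ↔
      arc port sgn j0 c' (.node v (α + fun j => M (port v j)))
        (.node v' (α' + fun j => M (port v' j)))
    simp only [arc]
    by_cases h1 : v = v'
    · subst h1
      rw [if_pos rfl, if_pos rfl, arcG_add]
    · rw [if_neg h1, if_neg h1]
  · exact Iff.rfl
  · exact Iff.rfl
  · exact Iff.rfl
  · exact Iff.rfl
  · exact Iff.rfl
  · exact Iff.rfl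
  · exact Iff.rfl
  · exact Iff.rfl
  · exact Iff.rfl
  · exact Iff.rfl

/-- The tournament with three components, arranged cyclically. -/
def tour (c : ZMod 3 → Q → ZMod 15) (x y : ZMod 3 × Pt E Q J L) : Prop :=
  if x.1 = y.1 then arc port sgn j0 (c x.1) x.2 y.2 else y.1 = x.1 + 1

theorem tour_tournament (hL : ∀ a : ZMod L, a + a = 0 → a = 0) (c : ZMod 3 → Q → ZMod 15) :
    IsTournament (tour (L := L) port sgn j0 c) := by
  rintro ⟨i, x⟩ ⟨i', y⟩
  unfold tour
  simp only
  by_cases h : i = i'
  · subst h
    simp only [if_true]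
    have h1 := arc_tournament port sgn j0 hL (c i) x y
    exact ⟨h1.1, fun h2 => h1.2 fun h3 => h2 (by rw [h3])⟩
  · rw [if_neg h, if_neg (Ne.symm h)]
    have key : ∀ i i' : ZMod 3, i ≠ i' → ((i' = i + 1 → ¬ i = i' + 1) ∧ (i' = i + 1 ∨ i = i' + 1)) := by
      decide
    exact ⟨(key i i' h).1, fun _ => (key i i' h).2⟩

/-- The bijections between the tournaments. -/
def bij (ρ : ZMod 3) (M : ZMod 3 → E → ZMod 15) :
    (ZMod 3 × Pt E Q J L) ≃ (ZMod 3 × Pt E Q J L) where
  toFun x := (x.1 + ρ, sh port (M x.1) x.2)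
  invFun x := (x.1 - ρ, (sh port (M (x.1 - ρ))).symm x.2)
  left_inv x := by
    simp
  right_inv x := by
    simp

theorem tour_bij {ρ : ZMod 3} {c c' : ZMod 3 → Q → ZMod 15} {M : ZMod 3 → E → ZMod 15}
    {x y : ZMod 3 × Pt E Q J L}
    (h : ∀ v α, (x.2 = .node v α ∨ y.2 = .node v α) → ∀ i,
      ∑ l, sgn l • M i (port v l) = c' (i + ρ) v - c i v) :
    tour port sgn j0 c x y ↔ tour port sgn j0 c' (bij port ρ M x) (bij port ρ M y) := by
  obtain ⟨i, x⟩ := x
  obtain ⟨i', y⟩ := y
  show (if i = i' then arc port sgn j0 (c i) x y else i' = i + 1) ↔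
    if i + ρ = i' + ρ then arc port sgn j0 (c' (i + ρ)) (sh port (M i) x) (sh port (M i') y)
      else i' + ρ = i + ρ + 1
  by_cases h1 : i = i'
  · subst h1
    rw [if_pos rfl, if_pos rfl]
    exact arc_sh port sgn j0 fun v α h2 => h v α h2 i
  · rw [if_neg h1, if_neg fun h2 => h1 (add_right_cancel h2)]
    constructor
    · intro h2
      rw [h2]
      ring
    · intro h2
      have h3 : i' = (i' + ρ) - ρ := by ring
      rw [h3, h2]
      ring

end

end Pool.Agent.TH658.Dg
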